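import Pool.Agent.H74.OLP.Targets2

/-!
# Locally planar cubic graphs, row PAI: pairing with potentials and with cuts
-/

set_option autoImplicit false
set_option linter.unusedSectionVars false
open scoped Classical
open Finset

namespace Pool.Agent.H67.OLP

open Pool.Agent.H74.OLP

private theorem aux {E F : Type} [Fintype E] [Fintype F] (l r : E → F) (x : E → R) (g : F → R)
    (h : ∀ f, ∑ e, ((if l e = f then x e else 0) + (if r e = f then x e else 0)) = 0) :
    ∑ e, (g (l e) + g (r e)) * x e = 0 := by
  have h1 : ∀ e, (g (l e) + g (r e)) * x e =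
      ∑ f, g f * ((if l e = f then x e else 0) + (if r e = f then x e else 0)) := by
    intro e
    have h2 : ∀ f, g f * ((if l e = f then x e else 0) + (if r e = f then x e else 0)) =
        (if l e = f then g f * x e else 0) + (if r e = f then g f * x e else 0) := by
      intro f
      split_ifs <;> ring
    rw [Finset.sum_congr rfl fun f _ => h2 f, Finset.sum_add_distrib, Finset.sum_ite_eq,
      Finset.sum_ite_eq, if_pos (mem_univ _), if_pos (mem_univ _)]
    ring
  rw [Finset.sum_congr rfl fun e _ => h1 e, Finset.sum_comm]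
  refine Finset.sum_eq_zero fun f _ => ?_
  rw [← Finset.mul_sum, h f, mul_zero]

theorem pf_PAI (h1 : T_ZGV) : T_PAI := by
  intro V E F _ _ _ M
  refine ⟨fun x g hx => ?_, fun D W hD => ?_, fun g hM v => ?_⟩
  · exact aux M.l M.r x g hx
  · have h2 := aux M.s M.t D W hD
    unfold CMap.dot
    rw [← h2]
    exact Finset.sum_congr rfl fun e _ => mul_comm _ _
  · have hpair : ∀ (e : E) (y z : F), (∀ f, M.OnF e f ↔ (f = y ∨ f = z)) →
        g (M.l e) + g (M.r e) = g y + g z := by
      intro e y z h
      have hl := (h (M.l e)).1 (Or.inl rfl)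
      have hr := (h (M.r e)).1 (Or.inr rfl)
      have hlr := hM.lr e
      rcases hl with hl | hl <;> rcases hr with hr | hr
      · exact absurd (hl.trans hr.symm) hlr
      · rw [hl, hr]
      · rw [hl, hr, add_comm]
      · exact absurd (hl.trans hr.symm) hlr
    obtain ⟨a, b, c, x, y, z, hab, hbc, hac, _, _, _, hv, ha, hb, hc⟩ := hM.tri v
    have h3 := h1 V E F M hM (fun e => g (M.l e) + g (M.r e)) v a b c hab hbc hac hv
    rw [h3]
    rw [hpair a y z ha, hpair b z x hb, hpair c x y hc]
    have h4 : (2 : R) = 0 := by decide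
    linear_combination (g x + g y + g z) * h4

end Pool.Agent.H67.OLP
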